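import Mathlib
import Pool.Agent.H59.L.S8.W695.KH.Defs

/-!
# Polytopes with few facets: statements
-/

set_option autoImplicit false

namespace Pool.Agent.Y506.FF

open MeasureTheory Set Filter Topology
open scoped ENNReal InnerProductSpace
open Pool.Agent.W695.KH (Eu EU EV VV Sm Pot Uu)

/-- the exponential density on `[0, ∞)` -/
noncomputable def e0 (s : ℝ) : ℝ≥0∞ := if 0 ≤ s then ENNReal.ofReal (Real.exp (-s)) else 0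

section

variable {ι : Type} [Fintype ι]

/-- the density of a vector of independent exponential variables -/
noncomputable def rho (s : Eu ι) : ℝ≥0∞ := ∏ i, e0 (s i)

/-- the vector `(1, …, 1)` -/
def one : Eu ι := WithLp.toLp 2 fun _ => (1 : ℝ)

/-- isometries with complementary orthogonal ranges -/
structure Pair {n d : ℕ} (L : Eu (Fin n) →ₗᵢ[ℝ] Eu ι) (M : Eu (Fin d) →ₗᵢ[ℝ] Eu ι) : Prop where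
  orth : ∀ x z, ⟪L x, M z⟫_ℝ = 0
  card : n + d = Fintype.card ι

/-- matrix of `M` -/
noncomputable def mat {d : ℕ} (M : Eu (Fin d) →ₗᵢ[ℝ] Eu ι) : Matrix ι (Fin d) ℝ :=
  fun i j => M (EuclideanSpace.single j 1) i

/-- squared norm of the projection of the `i`-th basis vector to the range of `M` -/
noncomputable def pw {d : ℕ} (M : Eu (Fin d) →ₗᵢ[ℝ] Eu ι) (i : ι) : ℝ := ∑ j, mat M i j ^ 2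

/-- orthogonal projection to the range of `M` -/
noncomputable def prj {d : ℕ} (M : Eu (Fin d) →ₗᵢ[ℝ] Eu ι) (w : Eu ι) : Eu ι :=
  ∑ j, ⟪M (EuclideanSpace.single j 1), w⟫_ℝ • M (EuclideanSpace.single j 1)

/-- the thickening map -/
noncomputable def Phi {d : ℕ} (M : Eu (Fin d) →ₗᵢ[ℝ] Eu ι) (w : Eu ι) : Eu ι :=
  WithLp.toLp 2 fun i => (1 + (w - prj M w) i) / (1 - prj M w i)

/-- domain of the thickening map -/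
def Wd {d : ℕ} (M : Eu (Fin d) →ₗᵢ[ℝ] Eu ι) : Set (Eu ι) :=
  {w | (∀ i, 0 < 1 + (w - prj M w) i) ∧ ‖prj M w‖ < 1 / 2}

/-- the weight `∑ π_i (t_i / 2 + (log 1/t_i)_+)`, `t = 1 + L x` -/
noncomputable def Yw {n d : ℕ} (L : Eu (Fin n) →ₗᵢ[ℝ] Eu ι) (M : Eu (Fin d) →ₗᵢ[ℝ] Eu ι)
    (x : Eu (Fin n)) : ℝ :=
  ∑ i, pw M i * ((1 + L x i) / 2 + max 0 (-Real.log (1 + L x i)))

/-- the body -/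
def KB {n : ℕ} (L : Eu (Fin n) →ₗᵢ[ℝ] Eu ι) : Set (Eu (Fin n)) := {x | ∀ i, 0 ≤ 1 + L x i}

end

/-- log-concave isotropic densities -/
structure IL {d : ℕ} (g : Eu (Fin d) → ℝ≥0∞) : Prop where
  meas : Measurable g
  lc : ∀ x y, ∀ t : ℝ, 0 < t → t < 1 → g x ^ (1 - t) * g y ^ t ≤ g ((1 - t) • x + t • y)
  mass : ∫⁻ z, g z = 1
  m1 : ∀ w, ∫⁻ z, ENNReal.ofReal ⟪w, z⟫_ℝ * g z = ∫⁻ z, ENNReal.ofReal (-⟪w, z⟫_ℝ) * g z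
  m2 : ∀ w, ∫⁻ z, ENNReal.ofReal (⟪w, z⟫_ℝ ^ 2) * g z = ENNReal.ofReal (‖w‖ ^ 2)
  m4 : ∀ w, ∫⁻ z, ENNReal.ofReal (⟪w, z⟫_ℝ ^ 4) * g z ≤ ENNReal.ofReal (9 * ‖w‖ ^ 4)

/-- concentration of Lipschitz functions -/
def LCon {κ : Type} [Fintype κ] (D : Set (Eu κ)) (l δ : ℝ) : Prop :=
  ∀ v : Eu κ → ℝ, ContDiff ℝ 1 v → (∀ x, |v x| ≤ 1) → (∀ x, ‖fderiv ℝ v x‖ ≤ l) → VV D v ≤ δ

/-! ### low dimension -/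

def S_LD : Prop := ∀ d : ℕ, 0 < d → ∃ c C : ℝ, 0 < c ∧ 0 < C ∧ ∀ g : Eu (Fin d) → ℝ≥0∞, IL g →
  (∀ z, ‖z‖ ≤ 1 / 7 → ENNReal.ofReal c ≤ g z) ∧ (∀ z, g z ≤ ENNReal.ofReal C) ∧
  ∀ z, ENNReal.ofReal (‖z‖ ^ 4) * g z ≤ ENNReal.ofReal C

def S_LOG : Prop := ∀ C1 C2 : ℝ, 0 < C1 → 0 < C2 → ∃ C3 : ℝ, 0 < C3 ∧ ∀ p : ℝ → ℝ≥0∞,
  Measurable p → (∀ u, p u ≤ ENNReal.ofReal C1) → ∫⁻ u, p u ≤ 1 →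
  ∫⁻ u, ENNReal.ofReal (u ^ 2) * p u ≤ ENNReal.ofReal C2 → ∀ g : ℝ, 0 ≤ g → g ≤ 1 →
  ∫⁻ u in {u | 0 < 1 + g * u}, ENNReal.ofReal (max 0 (-Real.log (1 + g * u))) * p u ≤
    ENNReal.ofReal C3

/-! ### product densities -/

def S_MOM : Prop := ∀ (ι : Type) [Fintype ι],
  (∫⁻ s : Eu ι, rho s = 1) ∧
  (∀ a : Eu ι, ∫⁻ s, ENNReal.ofReal ⟪a, s - one⟫_ℝ * rho s =
    ∫⁻ s, ENNReal.ofReal (-⟪a, s - one⟫_ℝ) * rho s) ∧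
  (∀ a : Eu ι, ∫⁻ s, ENNReal.ofReal (⟪a, s - one⟫_ℝ ^ 2) * rho s = ENNReal.ofReal (‖a‖ ^ 2)) ∧
  (∀ a : Eu ι, ∫⁻ s, ENNReal.ofReal (⟪a, s - one⟫_ℝ ^ 4) * rho s ≤
    ENNReal.ofReal (9 * ‖a‖ ^ 4)) ∧
  ∀ i : ι, ∫⁻ s : Eu ι, ENNReal.ofReal (s i ^ 2) * rho s = 2

def S_VAR : Prop := ∀ (ι : Type) [Fintype ι] (f : Eu ι → ℝ) (l : ℝ), ContDiff ℝ 1 f →
  (∀ s, |f s| ≤ 1) → 0 ≤ l → (∀ s, ‖fderiv ℝ f s‖ ≤ l) →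
  ∃ m : ℝ, |m| ≤ 1 ∧ ∫⁻ s, ENNReal.ofReal ((f s - m) ^ 2) * rho s ≤ ENNReal.ofReal (4 * l ^ 2)

/-! ### decompositions -/

def S_DEC : Prop := ∀ (ι : Type) [Fintype ι] (n d : ℕ) (L : Eu (Fin n) →ₗᵢ[ℝ] Eu ι)
  (M : Eu (Fin d) →ₗᵢ[ℝ] Eu ι), Pair L M →
  (∀ s : Eu ι, ∃ x z, s = L x + M z) ∧
  ∀ F : Eu ι → ℝ≥0∞, Measurable F → ∫⁻ s, F s = ∫⁻ z, ∫⁻ x, F (L x + M z)

def S_CPL : Prop := ∀ (ι : Type) [Fintype ι] (n d : ℕ) (L : Eu (Fin n) →ₗᵢ[ℝ] Eu ι),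
  n + d = Fintype.card ι → ∃ M : Eu (Fin d) →ₗᵢ[ℝ] Eu ι, Pair L M

def S_SPL : Prop := ∀ (ι : Type) [Fintype ι] (n d : ℕ) (L : Eu (Fin (n + 1)) →ₗᵢ[ℝ] Eu ι)
  (M : Eu (Fin d) →ₗᵢ[ℝ] Eu ι), Pair L M → ∀ θ : Eu (Fin (n + 1)), ‖θ‖ = 1 →
  ∃ (L' : Eu (Fin n) →ₗᵢ[ℝ] Eu ι) (M' : Eu (Fin (d + 1)) →ₗᵢ[ℝ] Eu ι) (e : Eu (Fin (d + 1))),
    Pair L' M' ∧ ‖e‖ = 1 ∧ ∀ (φ : ℝ → ℝ≥0∞) (G : Eu ι → ℝ≥0∞), Measurable φ → Measurable G →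
    ∫⁻ x, φ ⟪θ, x⟫_ℝ * G (L x) = ∫⁻ u : ℝ, φ u * ∫⁻ x, G (L' x + M' (u • e))

/-! ### thickening -/

def S_DET : Prop := ∀ (ι : Type) [Fintype ι] [DecidableEq ι] (d : ℕ) (A : Matrix ι (Fin d) ℝ),
  A.transpose * A = 1 → ∀ s : ι → ℝ, (∀ i, 0 < s i) →
  ∏ i, s i ^ (∑ j, A i j ^ 2) ≤ (A.transpose * Matrix.diagonal s * A).det

def S_JAC : Prop := ∀ (ι : Type) [Fintype ι] [DecidableEq ι] (d : ℕ)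
  (M : Eu (Fin d) →ₗᵢ[ℝ] Eu ι) (W : Set (Eu ι)), MeasurableSet W → W ⊆ Wd M →
  ∀ F : Eu ι → ℝ≥0∞, ∫⁻ w in W, ENNReal.ofReal |(∏ i, (1 - prj M w i)⁻¹) *
    ((mat M).transpose * Matrix.diagonal (Phi M w).ofLp * mat M).det| * F (Phi M w) =
    ∫⁻ s in Phi M '' W, F s

def S_TH : Prop := ∀ d : ℕ, ∃ a : ℝ, 0 < a ∧ ∀ (ι : Type) [Fintype ι] (n : ℕ)
  (L : Eu (Fin n) →ₗᵢ[ℝ] Eu ι) (M : Eu (Fin d) →ₗᵢ[ℝ] Eu ι), Pair L M →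
  (∀ x, ∑ i, L x i = 0) → ∀ B : Set (Eu (Fin n)), MeasurableSet B →
  (∀ x ∈ B, ∀ i, 0 < 1 + L x i) → ∀ S : Set (Eu ι), MeasurableSet S →
  (∀ s : Eu ι, (∀ i, 0 < s i) →
    (∃ x ∈ B, ‖s - (one + L x)‖ ^ 2 ≤ 1 / 4 * ∑ i, pw M i * s i ^ 2) → s ∈ S) →
  ENNReal.ofReal (a * Real.exp (-(Fintype.card ι : ℝ))) *
    ∫⁻ x in B, ENNReal.ofReal (Real.exp (-Yw L M x)) ≤ ∫⁻ s in S, rho s

/-! ### from concentration to isoperimetry -/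

def S_MILA : Prop := ∀ (κ : Type) [Fintype κ] (U : Eu κ → ℝ) (b : Eu κ → Eu κ) (A : ℝ), Pot U b A →
  EU U (fun _ => 1) = 1 → ∀ δ l : ℝ, 0 < δ → 0 < l →
  (∀ v : Eu κ → ℝ, ContDiff ℝ 1 v → (∀ x, |v x| ≤ 1) → (∀ x, ‖fderiv ℝ v x‖ ≤ l) →
    EU U (fun x => v x ^ 2) - EU U v ^ 2 ≤ δ) →
  ∀ (f : Eu κ → ℝ) (L M : ℝ), Sm f L M → EU U f = 0 → 4 * δ < EU U (fun x => f x ^ 2) →
  EU U (fun x => f x ^ 2) ≤ 2 / l * EU U fun x => ‖fderiv ℝ f x‖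

def S_MILB : Prop := ∀ (κ : Type) [Fintype κ] (D : Set (Eu κ)), IsCompact D → Convex ℝ D →
  0 < volume D → ∀ δ l : ℝ, 0 < δ → 0 < l → LCon D l δ →
  ∀ (f : Eu κ → ℝ) (L M : ℝ), Sm f L M → (∀ x, |f x| ≤ 1 / 2) → 4 * δ < VV D f →
  VV D f ≤ 2 / l * EV D fun x => ‖fderiv ℝ f x‖

/-! ### positions, halfspaces -/

def S_CEN : Prop := ∀ (ι : Type) [Fintype ι] (n : ℕ) (v : ι → Eu (Fin n)) (b : ι → ℝ),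
  Bornology.IsBounded {x : Eu (Fin n) | ∀ i, ⟪v i, x⟫_ℝ ≤ b i} →
  (interior {x : Eu (Fin n) | ∀ i, ⟪v i, x⟫_ℝ ≤ b i}).Nonempty →
  ∃ (x0 : Eu (Fin n)) (u : ι → Eu (Fin n)), ∑ i, u i = 0 ∧
    {x : Eu (Fin n) | ∀ i, ⟪v i, x⟫_ℝ ≤ b i} = {x | ∀ i, 0 ≤ 1 + ⟪u i, x - x0⟫_ℝ}

/-- halfspaces: `t min ≤ μ⁺(H)` for all halfspaces `H` orthogonal to `a` forces `t² Var ≤ C` -/
def S_HALF : Prop := ∃ C : ℝ, 0 < C ∧ ∀ (κ : Type) [Fintype κ] (D : Set (Eu κ)), IsCompact D →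
  Convex ℝ D → (interior D).Nonempty →
  ∀ μ : Measure (Eu κ), μ = (volume D)⁻¹ • volume.restrict D → ∀ (a : Eu κ) (t : ℝ≥0∞), ‖a‖ = 1 →
  (∀ b : ℝ, t * min (μ {x : Eu κ | ⟪a, x⟫_ℝ ≤ b}) (1 - μ {x : Eu κ | ⟪a, x⟫_ℝ ≤ b}) ≤
    liminf (fun ε : ℝ => (μ (Metric.thickening ε {x : Eu κ | ⟪a, x⟫_ℝ ≤ b}) -
      μ {x : Eu κ | ⟪a, x⟫_ℝ ≤ b}) / ENNReal.ofReal ε) (𝓝[>] 0)) →
  ∃ m : ℝ, t ^ 2 * ∫⁻ x, ENNReal.ofReal ((⟪a, x⟫_ℝ - m) ^ 2) ∂μ ≤ ENNReal.ofReal C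

end Pool.Agent.Y506.FF
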