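import Pool.Agent.H59.L.S8.Y506.FF.Sec

/-!
# Concentration on the section
-/

set_option autoImplicit false

namespace Pool.Agent.Y506.FF

open MeasureTheory Set Filter Topology
open scoped ENNReal InnerProductSpace
open Pool.Agent.W695.KH (Eu EU EV VV Sm Pot Uu)

variable {ι : Type} [Fintype ι] {n d : ℕ}

theorem sum_pw (M : Eu (Fin d) →ₗᵢ[ℝ] Eu ι) : ∑ i, pw M i = d := by
  unfold pw
  rw [Finset.sum_comm]
  have h1 : ∀ j : Fin d, ∑ i, mat M i j ^ 2 = 1 := by
    intro j
    have h2 : ‖M (EuclideanSpace.single j 1)‖ ^ 2 = 1 := by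
      rw [M.norm_map]
      simp
    rw [EuclideanSpace.norm_sq_eq] at h2
    rw [← h2]
    refine Finset.sum_congr rfl fun i _ => ?_
    rw [Real.norm_eq_abs, sq_abs]
    rfl
  simp [h1]

theorem pw_nonneg (M : Eu (Fin d) →ₗᵢ[ℝ] Eu ι) (i : ι) : 0 ≤ pw M i :=
  Finset.sum_nonneg fun _ _ => sq_nonneg _

open Classical in
/-- coordinates are inner products -/
theorem exists_coord (L : Eu (Fin n) →ₗᵢ[ℝ] Eu ι) (i : ι) :
    ∃ a : Eu (Fin n), ‖a‖ ≤ 1 ∧ ∀ x, L x i = ⟪a, x⟫_ℝ := by
  let A := ContinuousLinearMap.adjoint L.toContinuousLinearMap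
  let a : Eu (Fin n) := A (EuclideanSpace.single i 1)
  have h1 : ∀ x, L x i = ⟪a, x⟫_ℝ := by
    intro x
    have h2 : ⟪a, x⟫_ℝ = ⟪(EuclideanSpace.single i (1 : ℝ) : Eu ι), L x⟫_ℝ :=
      ContinuousLinearMap.adjoint_inner_left _ _ _
    rw [h2, EuclideanSpace.inner_single_left]
    simp
  refine ⟨a, ?_, h1⟩
  have h2 : ‖a‖ ^ 2 ≤ ‖a‖ := by
    rw [← real_inner_self_eq_norm_sq, ← h1]
    calc L a i ≤ ‖L a i‖ := le_abs_self _
      _ ≤ ‖L a‖ := PiLp.norm_apply_le _ _
      _ = ‖a‖ := L.norm_map a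
  by_contra h
  rw [not_le] at h
  nlinarith

theorem coord_cont (L : Eu (Fin n) →ₗᵢ[ℝ] Eu ι) (i : ι) : Continuous fun x => L x i := by
  have : Continuous fun x => L x := L.continuous
  fun_prop

/-- the integral of one term of `Yw` -/
theorem termY (hLD : S_LD) (hM : S_MOM) (hD : S_DEC) (hS : S_SPL) (hlog : S_LOG) (d : ℕ)
    (hd : 0 < d) : ∃ C : ℝ, 0 < C ∧ ∀ (ι : Type) [Fintype ι] (n : ℕ)
      (L : Eu (Fin (n + 1)) →ₗᵢ[ℝ] Eu ι)
      (M : Eu (Fin d) →ₗᵢ[ℝ] Eu ι), Pair L M → (∀ x, ∑ i, L x i = 0) → ∀ i : ι,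
      ∫⁻ x in KB L, ENNReal.ofReal ((1 + L x i) / 2 + max 0 (-Real.log (1 + L x i))) ≤
        volume (KB L) * ENNReal.ofReal C ∧ volume (KB L ∩ {x | 1 + L x i = 0}) = 0 := by
  obtain ⟨C1, C2, hC1, hC2, H⟩ := sec1 hLD hM hD hS d hd
  obtain ⟨C3, hC3, H3⟩ := hlog C1 C2 hC1 hC2
  refine ⟨1 + C2 + C3, by positivity, fun ι _ n L M hP hL i => ?_⟩
  obtain ⟨a, ha1, ha⟩ := exists_coord L i
  by_cases h0 : a = 0
  · have h1 : ∀ x, L x i = 0 := fun x => by rw [ha, h0, inner_zero_left]
    constructor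
    · have h2 : ∀ x, ENNReal.ofReal ((1 + L x i) / 2 + max 0 (-Real.log (1 + L x i))) =
          ENNReal.ofReal (1 / 2) := by
        intro x
        rw [h1]
        simp
      simp only [h2]
      rw [setLIntegral_const, mul_comm]
      refine mul_le_mul_right (ENNReal.ofReal_le_ofReal ?_) _
      linarith
    · have h2 : KB L ∩ {x | 1 + L x i = 0} = ∅ := by
        ext x
        simp [h1]
      rw [h2, measure_empty]
  · have hγ : 0 < ‖a‖ := norm_pos_iff.2 h0
    obtain ⟨θ, hθ⟩ : ∃ θ : Eu (Fin (n + 1)), θ = ‖a‖⁻¹ • a := ⟨_, rfl⟩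
    have hθ1 : ‖θ‖ = 1 := by
      rw [hθ, norm_smul, norm_inv, norm_norm, inv_mul_cancel₀ hγ.ne']
    have hx : ∀ x, L x i = ‖a‖ * ⟪θ, x⟫_ℝ := by
      intro x
      rw [ha, hθ, real_inner_smul_left, ← mul_assoc, mul_inv_cancel₀ hγ.ne', one_mul]
    obtain ⟨P, hPm, hP1, hPu, hP2, hPφ⟩ := H ι n L M hP hL θ hθ1
    have hset : MeasurableSet {u : ℝ | 0 < 1 + ‖a‖ * u} :=
      (isOpen_lt continuous_const (by fun_prop)).measurableSet
    constructor
    · obtain ⟨φ1, hφ1⟩ : ∃ φ1 : ℝ → ℝ≥0∞, φ1 = fun u => ENNReal.ofReal ((2 + u ^ 2) / 2) := ⟨_, rfl⟩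
      obtain ⟨φ2, hφ2⟩ : ∃ φ2 : ℝ → ℝ≥0∞, φ2 = {u : ℝ | 0 < 1 + ‖a‖ * u}.indicator
        fun u => ENNReal.ofReal (max 0 (-Real.log (1 + ‖a‖ * u))) := ⟨_, rfl⟩
      have hm1 : Measurable φ1 := by rw [hφ1]; fun_prop
      have hm2 : Measurable φ2 := by
        rw [hφ2]
        exact Measurable.indicator (by fun_prop) hset
      calc ∫⁻ x in KB L, ENNReal.ofReal ((1 + L x i) / 2 + max 0 (-Real.log (1 + L x i)))
          ≤ ∫⁻ x in KB L, (fun u => φ1 u + φ2 u) ⟪θ, x⟫_ℝ := by
            refine setLIntegral_mono' (KB_closed L).measurableSet fun x hxK => ?_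
            have h3 : 0 ≤ 1 + L x i := hxK i
            rw [ENNReal.ofReal_add (by positivity) (le_max_left _ _)]
            refine add_le_add ?_ ?_
            · rw [hφ1]
              refine ENNReal.ofReal_le_ofReal ?_
              have h4 : L x i ≤ 1 + ⟪θ, x⟫_ℝ ^ 2 := by
                rw [hx]
                have h5 : ‖a‖ * ⟪θ, x⟫_ℝ ≤ ‖a‖ * |⟪θ, x⟫_ℝ| :=
                  mul_le_mul_of_nonneg_left (le_abs_self _) (norm_nonneg _)
                have h6 : ‖a‖ * |⟪θ, x⟫_ℝ| ≤ 1 * |⟪θ, x⟫_ℝ| :=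
                  mul_le_mul_of_nonneg_right ha1 (abs_nonneg _)
                have h7 : |⟪θ, x⟫_ℝ| ≤ 1 + ⟪θ, x⟫_ℝ ^ 2 := by
                  rw [← sq_abs]
                  nlinarith [sq_nonneg (|⟪θ, x⟫_ℝ| - 1), abs_nonneg ⟪θ, x⟫_ℝ]
                linarith
              linarith
            · rw [hφ2]
              rcases h3.eq_or_lt with h4 | h4
              · rw [← h4]
                simp
              · rw [indicator_of_mem (show ⟪θ, x⟫_ℝ ∈ {u : ℝ | 0 < 1 + ‖a‖ * u} by
                  rw [mem_ofPred_eq, ← hx]; exact h4), hx]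
        _ = volume (KB L) * ∫⁻ u, (φ1 u + φ2 u) * P u := hPφ _ (hm1.add hm2)
        _ ≤ volume (KB L) * ENNReal.ofReal (1 + C2 + C3) := by
            refine mul_le_mul_right ?_ _
            have h5 : ∀ u, (φ1 u + φ2 u) * P u = P u + (2⁻¹ * (ENNReal.ofReal (u ^ 2) * P u) +
                φ2 u * P u) := by
              intro u
              have h6 : φ1 u = 1 + 2⁻¹ * ENNReal.ofReal (u ^ 2) := by
                rw [hφ1]
                have h7 : (2 + u ^ 2) / 2 = 1 + 2⁻¹ * u ^ 2 := by ring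
                simp only
                rw [h7, ENNReal.ofReal_add (by positivity) (by positivity),
                  ENNReal.ofReal_mul (by positivity), ENNReal.ofReal_one,
                  ENNReal.ofReal_inv_of_pos (by norm_num), ENNReal.ofReal_ofNat]
              rw [h6]
              ring
            simp only [h5]
            have hmq : Measurable fun u : ℝ => ENNReal.ofReal (u ^ 2) * P u :=
              (by fun_prop : Measurable fun u : ℝ => ENNReal.ofReal (u ^ 2)).mul hPm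
            have hmq2 : Measurable fun u : ℝ => (2 : ℝ≥0∞)⁻¹ * (ENNReal.ofReal (u ^ 2) * P u) :=
              measurable_const.mul hmq
            rw [lintegral_add_left hPm, lintegral_add_left hmq2, lintegral_const_mul _ hmq, hPu]
            have h8 : ∫⁻ u, φ2 u * P u ≤ ENNReal.ofReal C3 := by
              have h9 := H3 P hPm hP1 hPu.le hP2 ‖a‖ (norm_nonneg _) ha1
              refine le_trans (le_of_eq ?_) h9
              rw [← lintegral_indicator hset]
              refine lintegral_congr fun u => ?_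
              rw [hφ2]
              by_cases hu : u ∈ {u : ℝ | 0 < 1 + ‖a‖ * u}
              · rw [indicator_of_mem hu, indicator_of_mem hu]
              · rw [indicator_of_notMem hu, indicator_of_notMem hu, zero_mul]
            rw [ENNReal.ofReal_add (by positivity) hC3.le, ENNReal.ofReal_add zero_le_one hC2.le,
              ENNReal.ofReal_one, add_assoc]
            refine add_le_add le_rfl (add_le_add ?_ h8)
            calc (2 : ℝ≥0∞)⁻¹ * ∫⁻ u, ENNReal.ofReal (u ^ 2) * P u ≤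
                1 * ENNReal.ofReal C2 := mul_le_mul' (by simp) hP2
              _ = _ := one_mul _
    · have h1 := hPφ ({u : ℝ | 1 + ‖a‖ * u = 0}.indicator fun _ => 1)
        (measurable_const.indicator ((isClosed_eq (by fun_prop) continuous_const).measurableSet))
      have h2 : ∫⁻ x in KB L, ({u : ℝ | 1 + ‖a‖ * u = 0}.indicator (fun _ => (1 : ℝ≥0∞))) ⟪θ, x⟫_ℝ =
          volume (KB L ∩ {x | 1 + L x i = 0}) := by
        have hms : MeasurableSet {x | 1 + L x i = 0} :=
          (isClosed_eq (continuous_const.add (coord_cont L i)) continuous_const).measurableSet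
        rw [inter_comm, ← Measure.restrict_apply hms, ← lintegral_indicator_one hms]
        refine lintegral_congr fun x => ?_
        by_cases hu : x ∈ {x | 1 + L x i = 0}
        · rw [indicator_of_mem hu, indicator_of_mem (show ⟪θ, x⟫_ℝ ∈ {u : ℝ | 1 + ‖a‖ * u = 0} by
            rw [mem_ofPred_eq, ← hx]; exact hu)]
          rfl
        · rw [indicator_of_notMem hu, indicator_of_notMem
            (show ⟪θ, x⟫_ℝ ∉ {u : ℝ | 1 + ‖a‖ * u = 0} by
            rw [mem_ofPred_eq, ← hx]; exact hu)]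
      rw [← h2, h1]
      have h3 : ∫⁻ u, ({u : ℝ | 1 + ‖a‖ * u = 0}.indicator (fun _ => (1 : ℝ≥0∞))) u * P u = 0 := by
        have h4 : {u : ℝ | 1 + ‖a‖ * u = 0} ⊆ {-‖a‖⁻¹} := by
          intro u hu
          rw [mem_ofPred_eq] at hu
          rw [mem_singleton_iff]
          field_simp
          linarith
        have h5 : volume {u : ℝ | 1 + ‖a‖ * u = 0} = 0 := measure_mono_null h4 (by simp)
        have h6 : ∫⁻ u, ({u : ℝ | 1 + ‖a‖ * u = 0}.indicator (fun _ => (1 : ℝ≥0∞))) u * P u =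
            ∫⁻ _ : ℝ, 0 := by
          refine lintegral_congr_ae ?_
          filter_upwards [measure_eq_zero_iff_ae_notMem.1 h5] with u hu
          have hu' : u ∉ {u : ℝ | 1 + ‖a‖ * u = 0} := hu
          rw [indicator_of_notMem hu', zero_mul]
        rw [h6, lintegral_zero]
      rw [h3, mul_zero]

theorem Yw_int (hLD : S_LD) (hM : S_MOM) (hD : S_DEC) (hS : S_SPL) (hlog : S_LOG) (d : ℕ)
    (hd : 0 < d) : ∃ C : ℝ, 0 < C ∧ ∀ (ι : Type) [Fintype ι] (n : ℕ)
      (L : Eu (Fin (n + 1)) →ₗᵢ[ℝ] Eu ι)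
      (M : Eu (Fin d) →ₗᵢ[ℝ] Eu ι), Pair L M → (∀ x, ∑ i, L x i = 0) →
      ∫⁻ x in KB L, ENNReal.ofReal (Yw L M x) ≤ volume (KB L) * ENNReal.ofReal C ∧
        volume (KB L \ {x | ∀ i, 0 < 1 + L x i}) = 0 := by
  obtain ⟨C, hC, H⟩ := termY hLD hM hD hS hlog d hd
  refine ⟨d * C, by positivity, fun ι _ n L M hP hL => ⟨?_, ?_⟩⟩
  · have hmt : ∀ i, Measurable fun x : Eu (Fin (n + 1)) =>
        ENNReal.ofReal ((1 + L x i) / 2 + max 0 (-Real.log (1 + L x i))) := by
      intro i
      have h1 : Measurable fun x => L x i := (coord_cont L i).measurable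
      fun_prop
    calc ∫⁻ x in KB L, ENNReal.ofReal (Yw L M x)
        ≤ ∫⁻ x in KB L, ∑ i, ENNReal.ofReal (pw M i) *
          ENNReal.ofReal ((1 + L x i) / 2 + max 0 (-Real.log (1 + L x i))) := by
          refine setLIntegral_mono' (KB_closed L).measurableSet fun x hxK => ?_
          unfold Yw
          rw [ENNReal.ofReal_sum_of_nonneg fun i _ => mul_nonneg (pw_nonneg M i)
            (add_nonneg (div_nonneg (hxK i) (by norm_num)) (le_max_left _ _))]
          refine le_of_eq (Finset.sum_congr rfl fun i _ => ?_)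
          rw [ENNReal.ofReal_mul (pw_nonneg M i)]
      _ = ∑ i, ENNReal.ofReal (pw M i) * ∫⁻ x in KB L,
          ENNReal.ofReal ((1 + L x i) / 2 + max 0 (-Real.log (1 + L x i))) := by
          have hmt2 : ∀ i ∈ Finset.univ, Measurable fun x : Eu (Fin (n + 1)) =>
              ENNReal.ofReal (pw M i) *
                ENNReal.ofReal ((1 + L x i) / 2 + max 0 (-Real.log (1 + L x i))) :=
            fun i _ => measurable_const.mul (hmt i)
          rw [lintegral_finsetSum _ hmt2]
          refine Finset.sum_congr rfl fun i _ => ?_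
          rw [lintegral_const_mul _ (hmt i)]
      _ ≤ ∑ i, ENNReal.ofReal (pw M i) * (volume (KB L) * ENNReal.ofReal C) :=
          Finset.sum_le_sum fun i _ => mul_le_mul_right (H ι n L M hP hL i).1 _
      _ = volume (KB L) * ENNReal.ofReal (d * C) := by
          rw [← Finset.sum_mul, ← ENNReal.ofReal_sum_of_nonneg fun i _ => pw_nonneg M i, sum_pw,
            ENNReal.ofReal_mul (by positivity)]
          ring
  · have h1 : KB L \ {x | ∀ i, 0 < 1 + L x i} ⊆ ⋃ i, KB L ∩ {x | 1 + L x i = 0} := by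
      rintro x ⟨hx, hx2⟩
      rw [mem_ofPred_eq, not_forall] at hx2
      obtain ⟨i, hi⟩ := hx2
      exact mem_iUnion.2 ⟨i, hx, le_antisymm (not_lt.1 hi) (hx i)⟩
    exact measure_mono_null h1 (measure_iUnion_null fun i => (H ι n L M hP hL i).2)

end Pool.Agent.Y506.FF
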