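import Pool.Agent.H59.L.S8.Y506.FF.Stm
import Pool.Agent.H59.L.S8.H212R2.KLS.T1

/-!
# Marginal densities of the exponential product measure
-/

set_option autoImplicit false

namespace Pool.Agent.Y506.FF

open MeasureTheory Set Filter Topology
open scoped ENNReal InnerProductSpace
open Pool.Agent.W695.KH (Eu EU EV VV Sm Pot Uu)

theorem e0_meas : Measurable e0 := by
  unfold e0
  exact Measurable.ite measurableSet_Ici (by fun_prop) measurable_const

theorem e0_lc (s u t : ℝ) (h0 : 0 < t) (h1 : t < 1) :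
    e0 s ^ (1 - t) * e0 u ^ t ≤ e0 ((1 - t) * s + t * u) := by
  have h2 : 0 < 1 - t := by linarith
  unfold e0
  by_cases hs : 0 ≤ s
  · by_cases hu : 0 ≤ u
    · have h3 : 0 ≤ (1 - t) * s + t * u := by positivity
      rw [if_pos hs, if_pos hu, if_pos h3, ENNReal.ofReal_rpow_of_pos (Real.exp_pos _),
        ENNReal.ofReal_rpow_of_pos (Real.exp_pos _), ← ENNReal.ofReal_mul (by positivity),
        ← Real.exp_mul, ← Real.exp_mul, ← Real.exp_add]
      refine ENNReal.ofReal_le_ofReal (Real.exp_le_exp.2 (le_of_eq ?_))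
      ring
    · rw [if_neg hu, ENNReal.zero_rpow_of_pos h0, mul_zero]
      exact zero_le
  · rw [if_neg hs, ENNReal.zero_rpow_of_pos h2, zero_mul]
    exact zero_le

variable {ι : Type} [Fintype ι]

theorem rho_meas : Measurable (rho (ι := ι)) := by
  unfold rho
  refine Finset.measurable_prod _ fun i _ => e0_meas.comp ?_
  fun_prop

theorem rho_lc (s u : Eu ι) (t : ℝ) (h0 : 0 < t) (h1 : t < 1) :
    rho s ^ (1 - t) * rho u ^ t ≤ rho ((1 - t) • s + t • u) := by
  have h2 : 0 < 1 - t := by linarith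
  unfold rho
  rw [← ENNReal.prod_rpow_of_nonneg h2.le, ← ENNReal.prod_rpow_of_nonneg h0.le,
    ← Finset.prod_mul_distrib]
  refine Finset.prod_le_prod' fun i _ => ?_
  exact e0_lc (s i) (u i) t h0 h1

variable {n d : ℕ}

/-- marginal density of the range of `M` -/
noncomputable def gM (L : Eu (Fin n) →ₗᵢ[ℝ] Eu ι) (M : Eu (Fin d) →ₗᵢ[ℝ] Eu ι)
    (z : Eu (Fin d)) : ℝ≥0∞ := ∫⁻ x, rho (one + (L x + M z))

theorem gM_meas (L : Eu (Fin n) →ₗᵢ[ℝ] Eu ι) (M : Eu (Fin d) →ₗᵢ[ℝ] Eu ι) :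
    Measurable (gM L M) := by
  unfold gM
  refine Measurable.lintegral_prod_left' (f := fun p : Eu (Fin n) × Eu (Fin d) =>
    rho (one + (L p.1 + M p.2))) ?_
  refine rho_meas.comp ?_
  have h1 : Continuous fun p : Eu (Fin n) × Eu (Fin d) => one + (L p.1 + M p.2) := by
    refine continuous_const.add ((L.continuous.comp continuous_fst).add
      (M.continuous.comp continuous_snd))
  exact h1.measurable

theorem gM_lc (L : Eu (Fin n) →ₗᵢ[ℝ] Eu ι) (M : Eu (Fin d) →ₗᵢ[ℝ] Eu ι) (x y : Eu (Fin d))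
    (t : ℝ) (h0 : 0 < t) (h1 : t < 1) :
    gM L M x ^ (1 - t) * gM L M y ^ t ≤ gM L M ((1 - t) • x + t • y) := by
  have hm : ∀ z : Eu (Fin d), Measurable fun x : Eu (Fin n) => rho (one + (L x + M z)) := by
    intro z
    refine rho_meas.comp ?_
    have h1 : Continuous fun x : Eu (Fin n) => one + (L x + M z) :=
      continuous_const.add (L.continuous.add continuous_const)
    exact h1.measurable
  refine Pool.Agent.H212R2.KLS.PL volume t h0 h1 _ _ _ (hm x) (hm y) (hm _) fun a b => ?_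
  refine (rho_lc _ _ t h0 h1).trans (le_of_eq ?_)
  congr 1
  rw [map_add, map_add, map_smul, map_smul, map_smul, map_smul]
  have : (one : Eu ι) = (1 - t) • one + t • one := by rw [← add_smul]; simp
  conv_rhs => rw [this]
  module

theorem gM_int (hdec : S_DEC) (L : Eu (Fin n) →ₗᵢ[ℝ] Eu ι) (M : Eu (Fin d) →ₗᵢ[ℝ] Eu ι)
    (hP : Pair L M) (φ : Eu (Fin d) → ℝ≥0∞) (G : Eu ι → ℝ≥0∞) (hG : Measurable G)
    (h : ∀ x z, G (one + (L x + M z)) = φ z) :
    ∫⁻ z, φ z * gM L M z = ∫⁻ s, G s * rho s := by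
  have h1 : ∫⁻ s, G s * rho s = ∫⁻ s : Eu ι, G (one + s) * rho (one + s) :=
    (lintegral_add_left_eq_self (fun s => G s * rho s) one).symm
  have hm : Measurable fun s : Eu ι => G (one + s) * rho (one + s) :=
    (hG.mul rho_meas).comp (measurable_const.add measurable_id)
  rw [h1, (hdec ι n d L M hP).2 _ hm]
  refine lintegral_congr fun z => ?_
  simp only [h]
  unfold gM
  rw [lintegral_const_mul]
  refine rho_meas.comp ?_
  have h1 : Continuous fun x : Eu (Fin n) => one + (L x + M z) :=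
    continuous_const.add (L.continuous.add continuous_const)
  exact h1.measurable

theorem il (hdec : S_DEC) (hmom : S_MOM) (L : Eu (Fin n) →ₗᵢ[ℝ] Eu ι)
    (M : Eu (Fin d) →ₗᵢ[ℝ] Eu ι) (hP : Pair L M) : IL (gM L M) := by
  obtain ⟨k0, k1, k2, k4, -⟩ := hmom ι
  have hin : ∀ w x z, ⟪M w, (one + (L x + M z)) - one⟫_ℝ = ⟪w, z⟫_ℝ := by
    intro w x z
    rw [add_sub_cancel_left, inner_add_right, real_inner_comm, hP.orth, zero_add, M.inner_map_map]
  have hc : ∀ w, Continuous fun s : Eu ι => ⟪M w, s - one⟫_ℝ := by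
    intro w
    fun_prop
  refine ⟨gM_meas L M, gM_lc L M, ?_, fun w => ?_, fun w => ?_, fun w => ?_⟩
  · have h := gM_int hdec L M hP (fun _ => 1) (fun _ => 1) measurable_const fun _ _ => rfl
    simp only [one_mul] at h
    rw [h, k0]
  · rw [gM_int hdec L M hP (fun z => ENNReal.ofReal ⟪w, z⟫_ℝ)
      (fun s => ENNReal.ofReal ⟪M w, s - one⟫_ℝ)
      (ENNReal.measurable_ofReal.comp (hc w).measurable) (fun x z => by rw [hin]),
      gM_int hdec L M hP (fun z => ENNReal.ofReal (-⟪w, z⟫_ℝ))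
      (fun s => ENNReal.ofReal (-⟪M w, s - one⟫_ℝ))
      (ENNReal.measurable_ofReal.comp (hc w).neg.measurable) (fun x z => by rw [hin]), k1]
  · rw [gM_int hdec L M hP (fun z => ENNReal.ofReal (⟪w, z⟫_ℝ ^ 2))
      (fun s => ENNReal.ofReal (⟪M w, s - one⟫_ℝ ^ 2))
      (ENNReal.measurable_ofReal.comp ((hc w).pow 2).measurable) (fun x z => by rw [hin]), k2,
      M.norm_map]
  · rw [gM_int hdec L M hP (fun z => ENNReal.ofReal (⟪w, z⟫_ℝ ^ 4))
      (fun s => ENNReal.ofReal (⟪M w, s - one⟫_ℝ ^ 4))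
      (ENNReal.measurable_ofReal.comp ((hc w).pow 4).measurable) (fun x z => by rw [hin])]
    have := k4 (M w)
    rwa [M.norm_map] at this

end Pool.Agent.Y506.FF
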