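import Pool.Agent.H59.L.S8.Y506.FF.Il

/-!
# One-dimensional marginals of the section
-/

set_option autoImplicit false

namespace Pool.Agent.Y506.FF

open MeasureTheory Set Filter Topology
open scoped ENNReal InnerProductSpace
open Pool.Agent.W695.KH (Eu EU EV VV Sm Pot Uu)

variable {ι : Type} [Fintype ι] {n d : ℕ}

theorem one_add (L : Eu (Fin n) →ₗᵢ[ℝ] Eu ι) (x : Eu (Fin n)) (i : ι) :
    (one + L x : Eu ι) i = 1 + L x i := rfl

theorem KB_closed (L : Eu (Fin n) →ₗᵢ[ℝ] Eu ι) : IsClosed (KB L) := by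
  have h1 : KB L = ⋂ i, {x | 0 ≤ 1 + L x i} := by
    ext x
    simp [KB]
  rw [h1]
  refine isClosed_iInter fun i => isClosed_le continuous_const ?_
  have : Continuous fun x => L x := L.continuous
  fun_prop

theorem rho_one (L : Eu (Fin n) →ₗᵢ[ℝ] Eu ι) (hL : ∀ x, ∑ i, L x i = 0) (x : Eu (Fin n)) :
    rho (one + L x) = (KB L).indicator
      (fun _ => ENNReal.ofReal (Real.exp (-(Fintype.card ι : ℝ)))) x := by
  unfold rho
  by_cases hx : x ∈ KB L
  · rw [indicator_of_mem hx]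
    have h1 : ∀ i, e0 ((one + L x : Eu ι) i) = ENNReal.ofReal (Real.exp (-(1 + L x i))) := by
      intro i
      unfold e0
      rw [one_add, if_pos (hx i)]
    simp only [h1]
    rw [← ENNReal.ofReal_prod_of_nonneg fun i _ => (Real.exp_pos _).le, ← Real.exp_sum,
      Finset.sum_neg_distrib, Finset.sum_add_distrib, hL]
    simp
  · rw [indicator_of_notMem hx]
    unfold KB at hx
    rw [mem_ofPred_eq, not_forall] at hx
    obtain ⟨i, hi⟩ := hx
    refine Finset.prod_eq_zero (Finset.mem_univ i) ?_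
    unfold e0
    rw [one_add, if_neg hi]

theorem gM_zero (L : Eu (Fin n) →ₗᵢ[ℝ] Eu ι) (M : Eu (Fin d) →ₗᵢ[ℝ] Eu ι)
    (hL : ∀ x, ∑ i, L x i = 0) :
    gM L M 0 = ENNReal.ofReal (Real.exp (-(Fintype.card ι : ℝ))) * volume (KB L) := by
  unfold gM
  have h1 : ∀ x, rho (one + (L x + M 0)) = (KB L).indicator
      (fun _ => ENNReal.ofReal (Real.exp (-(Fintype.card ι : ℝ)))) x := by
    intro x
    rw [map_zero, add_zero, rho_one L hL]
  simp only [h1]
  rw [lintegral_indicator (KB_closed L).measurableSet, setLIntegral_const]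

/-- upper and lower bounds for the volume of the body -/
theorem vol_bd (hLD : S_LD) (hM : S_MOM) (hD : S_DEC) (d : ℕ) (hd : 0 < d) :
    ∃ c C : ℝ, 0 < c ∧ 0 < C ∧ ∀ (ι : Type) [Fintype ι] (n : ℕ) (L : Eu (Fin n) →ₗᵢ[ℝ] Eu ι)
      (M : Eu (Fin d) →ₗᵢ[ℝ] Eu ι), Pair L M → (∀ x, ∑ i, L x i = 0) →
      ENNReal.ofReal c ≤ ENNReal.ofReal (Real.exp (-(Fintype.card ι : ℝ))) * volume (KB L) ∧
      volume (KB L) ≠ 0 ∧ volume (KB L) ≠ ⊤ := by
  obtain ⟨c, C, hc, hC, H⟩ := hLD d hd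
  refine ⟨c, C, hc, hC, fun ι _ n L M hP hL => ?_⟩
  obtain ⟨h1, h2, -⟩ := H (gM L M) (il hD hM L M hP)
  have h3 := h1 0 (by simp)
  have h4 := h2 0
  rw [gM_zero L M hL] at h3 h4
  have he : ENNReal.ofReal (Real.exp (-(Fintype.card ι : ℝ))) ≠ 0 := by
    rw [Ne, ENNReal.ofReal_eq_zero, not_le]
    exact Real.exp_pos _
  refine ⟨h3, fun h0 => ?_, fun h0 => ?_⟩
  · rw [h0, mul_zero, nonpos_iff_eq_zero, ENNReal.ofReal_eq_zero] at h3
    linarith
  · rw [h0, ENNReal.mul_top he, top_le_iff] at h4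
    exact ENNReal.ofReal_ne_top h4

/-- second moment from decay -/
theorem mom_of_decay (p : ℝ → ℝ≥0∞) (C : ℝ) (hC : 0 < C)
    (h1 : ∀ u, p u ≤ ENNReal.ofReal C) (h2 : ∀ u, ENNReal.ofReal (u ^ 4) * p u ≤ ENNReal.ofReal C) :
    ∫⁻ u, ENNReal.ofReal (u ^ 2) * p u ≤ ENNReal.ofReal (2 * Real.pi * C) := by
  have h3 : ∀ u : ℝ, ENNReal.ofReal (u ^ 2) * p u ≤ ENNReal.ofReal (2 * C * (1 + u ^ 2)⁻¹) := by
    intro u
    have hu : 0 < 1 + u ^ 2 := by positivity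
    rcases le_or_gt (u ^ 2) 1 with h | h
    · calc ENNReal.ofReal (u ^ 2) * p u ≤ ENNReal.ofReal (u ^ 2) * ENNReal.ofReal C :=
            mul_le_mul_right (h1 u) _
        _ = ENNReal.ofReal (u ^ 2 * C) := (ENNReal.ofReal_mul (sq_nonneg u)).symm
        _ ≤ _ := by
            refine ENNReal.ofReal_le_ofReal ?_
            rw [← div_eq_mul_inv, le_div_iff₀ hu]
            nlinarith [mul_nonneg hC.le (sub_nonneg.2 h)]
    · have h4 := h2 u
      have e : ENNReal.ofReal (u ^ 4) = ENNReal.ofReal (u ^ 2) * ENNReal.ofReal (u ^ 2) := by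
        rw [← ENNReal.ofReal_mul (sq_nonneg u)]
        congr 1
        ring
      rw [e, mul_assoc] at h4
      have hpos : 0 < u ^ 2 := by linarith
      have h5 : ENNReal.ofReal (u ^ 2) * p u ≤ ENNReal.ofReal (C / u ^ 2) := by
        rw [ENNReal.ofReal_div_of_pos hpos, ENNReal.le_div_iff_mul_le
          (Or.inl (by rw [Ne, ENNReal.ofReal_eq_zero, not_le]; exact hpos))
          (Or.inl ENNReal.ofReal_ne_top), mul_comm]
        exact h4
      refine h5.trans (ENNReal.ofReal_le_ofReal ?_)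
      rw [← div_eq_mul_inv, div_le_div_iff₀ hpos hu]
      nlinarith
  refine (lintegral_mono h3).trans ?_
  rw [← ofReal_integral_eq_lintegral_ofReal (integrable_inv_one_add_sq.const_mul _)
    (Eventually.of_forall fun u => by positivity), integral_const_mul,
    integral_univ_inv_one_add_sq]
  exact ENNReal.ofReal_le_ofReal (by linarith)

/-- one-dimensional marginals of the uniform measure on the body -/
theorem sec1 (hLD : S_LD) (hM : S_MOM) (hD : S_DEC) (hS : S_SPL) (d : ℕ) (hd : 0 < d) :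
    ∃ C1 C2 : ℝ, 0 < C1 ∧ 0 < C2 ∧ ∀ (ι : Type) [Fintype ι] (n : ℕ)
      (L : Eu (Fin (n + 1)) →ₗᵢ[ℝ] Eu ι)
      (M : Eu (Fin d) →ₗᵢ[ℝ] Eu ι), Pair L M → (∀ x, ∑ i, L x i = 0) → ∀ θ : Eu (Fin (n + 1)),
      ‖θ‖ = 1 → ∃ P : ℝ → ℝ≥0∞, Measurable P ∧ (∀ u, P u ≤ ENNReal.ofReal C1) ∧ ∫⁻ u, P u = 1 ∧
        ∫⁻ u, ENNReal.ofReal (u ^ 2) * P u ≤ ENNReal.ofReal C2 ∧
        ∀ φ : ℝ → ℝ≥0∞, Measurable φ →
          ∫⁻ x in KB L, φ ⟪θ, x⟫_ℝ = volume (KB L) * ∫⁻ u, φ u * P u := by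
  obtain ⟨c, C, hc, hC, H⟩ := vol_bd hLD hM hD d hd
  obtain ⟨c', C', hc', hC', H'⟩ := hLD (d + 1) (Nat.succ_pos d)
  refine ⟨C' / c, 2 * Real.pi * (C' / c), by positivity, by positivity,
    fun ι _ n L M hP hL θ hθ => ?_⟩
  obtain ⟨L', M', e, hP', he, hint⟩ := hS ι n d L M hP θ hθ
  obtain ⟨v1, v2, v3⟩ := H ι (n + 1) L M hP hL
  obtain ⟨-, g1, g2⟩ := H' (gM L' M') (il hD hM L' M' hP')
  obtain ⟨E, hE⟩ : ∃ E : ℝ≥0∞, E = ENNReal.ofReal (Real.exp (-(Fintype.card ι : ℝ))) := ⟨_, rfl⟩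
  have hE0 : E ≠ 0 := by
    rw [hE, Ne, ENNReal.ofReal_eq_zero, not_le]
    exact Real.exp_pos _
  have hE1 : E ≠ ⊤ := by rw [hE]; exact ENNReal.ofReal_ne_top
  rw [← hE] at v1
  obtain ⟨m, hm⟩ : ∃ m : ℝ≥0∞, m = E * volume (KB L) := ⟨_, rfl⟩
  have hm0 : m ≠ 0 := by rw [hm]; exact mul_ne_zero hE0 v2
  have hm1 : m ≠ ⊤ := by rw [hm]; exact ENNReal.mul_ne_top hE1 v3
  rw [← hm] at v1
  have hpm : Measurable fun u : ℝ => gM L' M' (u • e) := by
    refine (gM_meas L' M').comp ?_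
    have : Continuous fun u : ℝ => u • e := by fun_prop
    exact this.measurable
  have hmc : m⁻¹ ≤ ENNReal.ofReal c⁻¹ := by
    rw [ENNReal.ofReal_inv_of_pos hc]
    exact ENNReal.inv_le_inv.2 v1
  have hq1 : ∀ u : ℝ, m⁻¹ * gM L' M' (u • e) ≤ ENNReal.ofReal (C' / c) := by
    intro u
    calc m⁻¹ * gM L' M' (u • e) ≤ ENNReal.ofReal c⁻¹ * ENNReal.ofReal C' :=
          mul_le_mul' hmc (g1 _)
      _ = ENNReal.ofReal (C' / c) := by
          rw [← ENNReal.ofReal_mul (by positivity)]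
          congr 1
          rw [div_eq_mul_inv, mul_comm]
  have hq2 : ∀ u : ℝ, ENNReal.ofReal (u ^ 4) * (m⁻¹ * gM L' M' (u • e)) ≤ ENNReal.ofReal (C' / c) := by
    intro u
    have h1 := g2 (u • e)
    have h2 : ‖u • e‖ ^ 4 = u ^ 4 := by
      rw [norm_smul, he, mul_one, Real.norm_eq_abs]
      exact Even.pow_abs (by decide) u
    rw [h2] at h1
    calc ENNReal.ofReal (u ^ 4) * (m⁻¹ * gM L' M' (u • e))
        = m⁻¹ * (ENNReal.ofReal (u ^ 4) * gM L' M' (u • e)) := by ring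
      _ ≤ ENNReal.ofReal c⁻¹ * ENNReal.ofReal C' := mul_le_mul' hmc h1
      _ = ENNReal.ofReal (C' / c) := by
          rw [← ENNReal.ofReal_mul (by positivity)]
          congr 1
          rw [div_eq_mul_inv, mul_comm]
  have hphi : ∀ φ : ℝ → ℝ≥0∞, Measurable φ →
      ∫⁻ x in KB L, φ ⟪θ, x⟫_ℝ = volume (KB L) * ∫⁻ u, φ u * (m⁻¹ * gM L' M' (u • e)) := by
    intro φ hφ
    have h1 := hint φ (fun s => rho (one + s)) hφ (rho_meas.comp (measurable_const.add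
      measurable_id))
    have h2 : ∫⁻ x, φ ⟪θ, x⟫_ℝ * rho (one + L x) = E * ∫⁻ x in KB L, φ ⟪θ, x⟫_ℝ := by
      have hm1 : Measurable fun x : Eu (Fin (n + 1)) => φ ⟪θ, x⟫_ℝ :=
        hφ.comp (by fun_prop : Measurable fun x : Eu (Fin (n + 1)) => ⟪θ, x⟫_ℝ)
      rw [← lintegral_const_mul E hm1, ← lintegral_indicator (KB_closed L).measurableSet]
      refine lintegral_congr fun x => ?_
      rw [rho_one L hL, ← hE]
      by_cases hx : x ∈ KB L
      · rw [indicator_of_mem hx, indicator_of_mem hx, mul_comm]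
      · rw [indicator_of_notMem hx, indicator_of_notMem hx, mul_zero]
    rw [h2] at h1
    have h3 : ∫⁻ u, φ u * (m⁻¹ * gM L' M' (u • e)) = m⁻¹ * ∫⁻ u, φ u * gM L' M' (u • e) := by
      have hm2 : Measurable fun u : ℝ => φ u * gM L' M' (u • e) := hφ.mul hpm
      rw [← lintegral_const_mul _ hm2]
      refine lintegral_congr fun u => ?_
      ring
    have h4 : ∫⁻ u, φ u * gM L' M' (u • e) = E * ∫⁻ x in KB L, φ ⟪θ, x⟫_ℝ := by
      rw [h1]
      rfl
    rw [h3, h4, hm, ENNReal.mul_inv (Or.inl hE0) (Or.inl hE1)]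
    calc ∫⁻ x in KB L, φ ⟪θ, x⟫_ℝ = (volume (KB L) * (volume (KB L))⁻¹) * (E⁻¹ * E) *
          ∫⁻ x in KB L, φ ⟪θ, x⟫_ℝ := by
          rw [ENNReal.mul_inv_cancel v2 v3, ENNReal.inv_mul_cancel hE0 hE1, one_mul, one_mul]
      _ = _ := by ring
  refine ⟨fun u => m⁻¹ * gM L' M' (u • e), measurable_const.mul hpm, hq1, ?_, ?_, hphi⟩
  · have h1 := hphi (fun _ => 1) measurable_const
    simp only [one_mul] at h1
    rw [setLIntegral_one] at h1
    have h2 : volume (KB L) * 1 = volume (KB L) * ∫⁻ u : ℝ, m⁻¹ * gM L' M' (u • e) := by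
      rw [mul_one]
      exact h1
    exact ((ENNReal.mul_right_inj v2 v3).1 h2).symm
  · exact mom_of_decay _ _ (by positivity) hq1 hq2

end Pool.Agent.Y506.FF
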